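import Mathlib

set_option autoImplicit false
set_option linter.style.haveILetI false

namespace Pool.Agent.R838.Approx

open TensorProduct Module

section geom

variable (K B : Type*) [Field K] [CommRing B] [Algebra K B] [Module.Finite K B]
  [Algebra.IsGeometricallyReduced K B]

theorem exists_equiv : ∃ (n : ℕ), n = finrank K B ∧
    Nonempty ((AlgebraicClosure K ⊗[K] B) ≃ₐ[AlgebraicClosure K] (Fin n → AlgebraicClosure K)) := by
  classical
  set Ω := AlgebraicClosure K
  let C := Ω ⊗[K] B
  haveI : IsReduced C := (Algebra.isGeometricallyReduced_field_iff K B).1 inferInstance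
  haveI : Module.Finite Ω C := inferInstance
  haveI : IsArtinianRing C := IsArtinianRing.of_finite Ω C
  have hb : ∀ I : MaximalSpectrum C, Function.Bijective (algebraMap Ω (C ⧸ I.asIdeal)) := by
    intro I
    haveI := I.isMaximal
    letI : Field (C ⧸ I.asIdeal) := Ideal.Quotient.field _
    haveI : Module.Finite Ω (C ⧸ I.asIdeal) :=
      Module.Finite.of_surjective (Ideal.Quotient.mkₐ Ω I.asIdeal).toLinearMap
        (Ideal.Quotient.mkₐ_surjective Ω I.asIdeal)
    exact IsAlgClosed.algebraMap_bijective_of_isIntegral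
  let e1 : C ≃ₐ[Ω] (∀ I : MaximalSpectrum C, C ⧸ I.asIdeal) :=
    (IsArtinianRing.equivPi C).restrictScalars Ω
  let e2 : (∀ I : MaximalSpectrum C, C ⧸ I.asIdeal) ≃ₐ[Ω] (MaximalSpectrum C → Ω) :=
    AlgEquiv.piCongrRight fun I =>
      (AlgEquiv.ofBijective (Algebra.ofId Ω (C ⧸ I.asIdeal)) (hb I)).symm
  letI : Fintype (MaximalSpectrum C) := Fintype.ofFinite _
  have hcard : Fintype.card (MaximalSpectrum C) = finrank K B := by
    have h1 : finrank Ω C = finrank K B := by
      exact Module.finrank_baseChange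
    have h2 : finrank Ω C = finrank Ω (MaximalSpectrum C → Ω) :=
      (e1.trans e2).toLinearEquiv.finrank_eq
    rw [← h1, h2, Module.finrank_fintype_fun_eq_card]
  refine ⟨finrank K B, rfl, ⟨(e1.trans e2).trans ?_⟩⟩
  exact AlgEquiv.piCongrLeft' Ω (fun _ => Ω) (Fintype.equivFinOfCardEq hcard)

theorem exists_homs : ∃ χ : Fin (finrank K B) → (B →ₐ[K] AlgebraicClosure K),
    Function.Injective χ := by
  obtain ⟨n, rfl, ⟨e⟩⟩ := exists_equiv K B
  let χ : Fin (finrank K B) → (B →ₐ[K] AlgebraicClosure K) := fun i =>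
    (((Pi.evalAlgHom (AlgebraicClosure K) (fun _ => AlgebraicClosure K) i).comp
      e.toAlgHom).restrictScalars K).comp Algebra.TensorProduct.includeRight
  refine ⟨χ, fun i j hij => ?_⟩
  have h1 : (Pi.evalAlgHom (AlgebraicClosure K) (fun _ => AlgebraicClosure K) i).comp e.toAlgHom =
      (Pi.evalAlgHom (AlgebraicClosure K) (fun _ => AlgebraicClosure K) j).comp e.toAlgHom := by
    refine Algebra.TensorProduct.ext (by ext) ?_
    exact hij
  by_contra hne
  have h2 := DFunLike.congr_fun h1 (e.symm (Pi.single i 1))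
  simp [hne] at h2

theorem formallyUnramified : Algebra.FormallyUnramified K B := by
  obtain ⟨n, -, ⟨e⟩⟩ := exists_equiv K B
  haveI : Algebra.FormallyUnramified (AlgebraicClosure K) (AlgebraicClosure K ⊗[K] B) :=
    Algebra.FormallyUnramified.of_equiv e.symm
  exact Algebra.FormallyUnramified.of_formallyUnramified_tensorProduct_of_faithfullyFlat
    (T := AlgebraicClosure K)

end geom

end Pool.Agent.R838.Approx
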