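import Mathlib

set_option autoImplicit false
set_option linter.style.haveILetI false

namespace Pool.Agent.R838.Approx

open PowerSeries

section expand

variable {k O : Type*} [Field k] [CommRing O] [IsDomain O] [Algebra k O] (π : O)

/-- A domain `O` containing its residue field modulo a principal ideal `(π)` with `⋂ (π^n) = 0`
embeds into `k⟦X⟧` with `π ↦ X`. -/
theorem exists_expand (hπ0 : π ≠ 0) (hπ : ¬ IsUnit π) (hsep : ∀ x : O, (∀ n, π ^ n ∣ x) → x = 0)
    (hres : ∀ x : O, ∃ (c : k) (y : O), x = algebraMap k O c + π * y) :
    ∃ f : O →ₐ[k] k⟦X⟧, Function.Injective f ∧ f π = X := by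
  choose c q hcq using hres
  have huniq : ∀ (a a' : k) (y y' : O), algebraMap k O a + π * y = algebraMap k O a' + π * y' →
      a = a' ∧ y = y' := by
    intro a a' y y' h
    have h1 : a = a' := by
      by_contra hne
      apply hπ
      have h2 : IsUnit (algebraMap k O (a - a')) := (IsUnit.mk0 _ (sub_ne_zero.2 hne)).map _
      refine isUnit_of_dvd_unit ⟨y' - y, ?_⟩ h2
      rw [map_sub]
      linear_combination h
    subst h1
    exact ⟨rfl, mul_left_cancel₀ hπ0 (add_left_cancel h)⟩
  have hadd : ∀ x y, c (x + y) = c x + c y ∧ q (x + y) = q x + q y := by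
    intro x y
    apply huniq
    rw [← hcq (x + y), map_add]
    conv_lhs => rw [hcq x, hcq y]
    ring
  have hsmul : ∀ (a : k) x, c (algebraMap k O a * x) = a * c x ∧
      q (algebraMap k O a * x) = algebraMap k O a * q x := by
    intro a x
    apply huniq
    rw [← hcq (algebraMap k O a * x), map_mul]
    conv_lhs => rw [hcq x]
    ring
  have hpi : ∀ x, c (π * x) = 0 ∧ q (π * x) = x := by
    intro x
    apply huniq
    rw [← hcq (π * x), map_zero, zero_add]
  have hmul : ∀ x y, c (x * y) = c x * c y ∧ q (x * y) =
      algebraMap k O (c x) * q y + algebraMap k O (c y) * q x + π * (q x * q y) := by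
    intro x y
    apply huniq
    rw [← hcq (x * y), map_mul]
    conv_lhs => rw [hcq x, hcq y]
    ring
  have hone : c 1 = 1 ∧ q 1 = 0 := by
    apply huniq
    rw [← hcq 1, map_one, mul_zero, add_zero]
  let F : O → k⟦X⟧ := fun x => mk fun n => c (q^[n] x)
  have hF : ∀ x, F x = C (c x) + X * F (q x) := by
    intro x
    ext n
    rcases n with _ | n
    · simp [F]
    · rw [coeff_mk, map_add, mul_comm X, coeff_succ_mul_X, coeff_mk, coeff_C,
        if_neg (Nat.succ_ne_zero n), zero_add, Function.iterate_succ_apply]
  have hFadd : ∀ x y, F (x + y) = F x + F y := by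
    intro x y
    have h1 : ∀ n x y, q^[n] (x + y) = q^[n] x + q^[n] y := by
      intro n
      induction n with
      | zero => intro x y; rfl
      | succ n ih => intro x y; rw [Function.iterate_succ_apply, (hadd x y).2, ih]; rfl
    ext n
    rw [map_add, coeff_mk, coeff_mk, coeff_mk, h1, (hadd _ _).1]
  have hFsmul : ∀ (a : k) x, F (algebraMap k O a * x) = C a * F x := by
    intro a x
    have h1 : ∀ n x, q^[n] (algebraMap k O a * x) = algebraMap k O a * q^[n] x := by
      intro n
      induction n with
      | zero => intro x; rfl
      | succ n ih => intro x; rw [Function.iterate_succ_apply, (hsmul a x).2, ih]; rfl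
    ext n
    rw [coeff_C_mul, coeff_mk, coeff_mk, h1, (hsmul _ _).1]
  have hFpi : ∀ x, F (π * x) = X * F x := by
    intro x
    rw [hF, (hpi x).1, (hpi x).2, map_zero, zero_add]
  have hF0 : F 0 = 0 := by
    have := hFsmul 0 0
    simpa using this
  have hFmul : ∀ x y, F (x * y) = F x * F y := by
    have h1 : ∀ n x y, (X : k⟦X⟧) ^ n ∣ F (x * y) - F x * F y := by
      intro n
      induction n with
      | zero => intro x y; simp
      | succ n ih =>
        intro x y
        have h2 : F (x * y) - F x * F y = X * X * (F (q x * q y) - F (q x) * F (q y)) := by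
          rw [hF (x * y), (hmul x y).1, (hmul x y).2, hFadd, hFadd, hFpi, hFsmul, hFsmul,
            hF x, hF y, map_mul]
          ring
        rw [h2, pow_succ', mul_assoc]
        exact mul_dvd_mul_left _ (dvd_mul_of_dvd_right (ih _ _) _)
    intro x y
    rw [← sub_eq_zero]
    ext m
    have h3 := h1 (m + 1) x y
    rw [X_pow_dvd_iff] at h3
    rw [h3 m (Nat.lt_succ_self m), map_zero]
  have hF1 : F 1 = 1 := by
    rw [hF, hone.1, hone.2, hF0, mul_zero, add_zero, map_one]
  let f : O →ₐ[k] k⟦X⟧ :=
    { toFun := F
      map_one' := hF1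
      map_mul' := hFmul
      map_zero' := hF0
      map_add' := hFadd
      commutes' := fun a => by
        have := hFsmul a 1
        rw [mul_one, hF1, mul_one] at this
        rw [this]
        rfl }
  refine ⟨f, ?_, ?_⟩
  · rw [injective_iff_map_eq_zero]
    intro x hx
    apply hsep
    have h1 : ∀ n x, F x = 0 → π ^ n ∣ x := by
      intro n
      induction n with
      | zero => intro x _; simp
      | succ n ih =>
        intro x hx
        have h2 := hF x
        rw [hx] at h2
        have h3 : c x = 0 := by
          have := congrArg (coeff 0) h2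
          simpa using this.symm
        rw [h3, map_zero, zero_add] at h2
        have h4 : F (q x) = 0 := by
          rcases mul_eq_zero.1 h2.symm with h5 | h5
          · exact absurd h5 X_ne_zero
          · exact h5
        have h6 := hcq x
        rw [h3, map_zero, zero_add] at h6
        rw [h6, pow_succ']
        exact mul_dvd_mul_left _ (ih _ h4)
    exact fun n => h1 n x hx
  · have := hFpi 1
    rw [mul_one, hF1, mul_one] at this
    exact this

end expand

end Pool.Agent.R838.Approx
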