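import Mathlib

set_option autoImplicit false
set_option linter.style.haveILetI false

namespace Pool.Agent.R838.Approx

open TensorProduct Module

section split

variable {R P F S : Type*} [CommRing R] [CommRing P] [IsDomain P] [Algebra R P] [Field F]
  [Algebra P F] [IsFractionRing P F] [CommRing S] [Algebra R S] {d : ℕ}

/-- If a free `R`-algebra `S` of rank `d` has `d` distinct `R`-homomorphisms to a domain `P`, then
its base change to `P` is generically split. -/
theorem split_of_homs [Nontrivial R] (b : Basis (Fin d) R S) (ψ : Fin d → (S →ₐ[R] P))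
    (hψ : Function.Injective ψ) :
    Nonempty ((F ⊗[P] (P ⊗[R] S)) ≃ₐ[F] (Fin d → F)) := by
  classical
  let Ψ : Fin d → (F ⊗[P] (P ⊗[R] S) →ₐ[F] F) := fun i =>
    Algebra.TensorProduct.lift (Algebra.ofId F F)
      ((Algebra.ofId P F).comp
        (Algebra.TensorProduct.lift (Algebra.ofId P P) (ψ i) fun _ _ => Commute.all _ _))
      fun _ _ => Commute.all _ _
  have hΨ : ∀ i s, Ψ i (1 ⊗ₜ (1 ⊗ₜ s)) = algebraMap P F (ψ i s) := by
    intro i s
    simp [Ψ, Algebra.ofId_apply]
  have hinj : Function.Injective Ψ := by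
    intro i j hij
    apply hψ
    ext s
    have h1 := hΨ i s
    rw [hij, hΨ j s] at h1
    exact (IsFractionRing.injective P F h1).symm
  have hli : LinearIndependent F (fun i => (Ψ i : F ⊗[P] (P ⊗[R] S) → F)) := by
    have h1 := linearIndependent_monoidHom (F ⊗[P] (P ⊗[R] S)) F
    have h2 : Function.Injective (fun i => ((Ψ i : F ⊗[P] (P ⊗[R] S) →+* F) :
        F ⊗[P] (P ⊗[R] S) →* F)) := by
      intro i j hij
      apply hinj
      exact AlgHom.ext fun x => DFunLike.congr_fun hij x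
    exact h1.comp _ h2
  let Φ : F ⊗[P] (P ⊗[R] S) →ₐ[F] (Fin d → F) := AlgHom.pi Ψ
  have hsurj : Function.Surjective Φ.toLinearMap := by
    rw [← LinearMap.range_eq_top]
    by_contra hne
    obtain ⟨f, hf0, hf⟩ := Submodule.exists_le_ker_of_lt_top _ (lt_top_iff_ne_top.2 hne)
    apply hf0
    have h1 : ∑ i, f (Pi.single i 1) • (fun i => (Ψ i : F ⊗[P] (P ⊗[R] S) → F)) i = 0 := by
      funext x
      have h2 : f (Φ x) = 0 := by
        have := hf (LinearMap.mem_range_self Φ.toLinearMap x)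
        exact this
      rw [Finset.sum_apply, Pi.zero_apply, ← h2]
      conv_rhs => rw [← Finset.univ_sum_single (Φ x), map_sum]
      refine Finset.sum_congr rfl fun i _ => ?_
      have h3 : (Pi.single i (Φ x i) : Fin d → F) = Φ x i • Pi.single i 1 := by
        rw [← Pi.single_smul, smul_eq_mul, mul_one]
      rw [h3, map_smul, Pi.smul_apply, smul_eq_mul, smul_eq_mul, mul_comm]
      rfl
    have h4 := Fintype.linearIndependent_iff.1 hli _ h1
    apply LinearMap.pi_ext'
    intro i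
    ext
    simpa using h4 i
  let b' : Basis (Fin d) F (F ⊗[P] (P ⊗[R] S)) := (b.baseChange P).baseChange F
  haveI : Module.Finite F (F ⊗[P] (P ⊗[R] S)) := Module.Finite.of_basis b'
  have hfr : finrank F (F ⊗[P] (P ⊗[R] S)) = finrank F (Fin d → F) := by
    rw [finrank_eq_card_basis b', finrank_fintype_fun_eq_card]
  have hinj2 : Function.Injective Φ.toLinearMap :=
    (LinearMap.injective_iff_surjective_of_finrank_eq_finrank hfr).2 hsurj
  exact ⟨AlgEquiv.ofBijective Φ ⟨hinj2, hsurj⟩⟩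

end split

section special

variable {k A P S : Type*} [Field k] [CommRing A] [Algebra k A] [CommRing P]
  [CommRing S] [Algebra (PowerSeries k) S] [Algebra (PowerSeries k) P]

open PowerSeries

/-- Special fibre of a base change. -/
theorem special_of_baseChange (c : P →+* k) (ι : k →+* P) (ϖ : P) (hcι : ∀ a, c (ι a) = a)
    (hϖ : c ϖ = 0) (hP : ∀ p, ∃ p', p = ι (c p) + ϖ * p')
    (hC : ∀ a, algebraMap k⟦X⟧ P (C a) = ι a) (hX : ϖ ∣ algebraMap k⟦X⟧ P X)
    (f : S →+* A) (hf : Function.Surjective f)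
    (hfk : ∀ a : k, f (algebraMap k⟦X⟧ S (C a)) = algebraMap k A a)
    (hker : RingHom.ker f = Ideal.span {algebraMap k⟦X⟧ S X}) :
    ∃ g : (P ⊗[k⟦X⟧] S) →+* A, Function.Surjective g ∧
      (∀ a : k, g (algebraMap P (P ⊗[k⟦X⟧] S) (ι a)) = algebraMap k A a) ∧
      RingHom.ker g = Ideal.span {algebraMap P (P ⊗[k⟦X⟧] S) ϖ} := by
  have hdec : ∀ r : k⟦X⟧, ∃ r', r = C (constantCoeff r) + X * r' := by
    intro r
    have h1 : (X : k⟦X⟧) ∣ r - C (constantCoeff r) := by
      rw [X_dvd_iff]; simp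
    obtain ⟨r', hr'⟩ := h1
    exact ⟨r', by linear_combination hr'⟩
  have hfX : f (algebraMap k⟦X⟧ S X) = 0 := by
    rw [← RingHom.mem_ker, hker]
    exact Ideal.mem_span_singleton_self _
  have hfr : ∀ r : k⟦X⟧, f (algebraMap k⟦X⟧ S r) = algebraMap k A (constantCoeff r) := by
    intro r
    obtain ⟨r', hr'⟩ := hdec r
    conv_lhs => rw [hr']
    rw [map_add, map_add, hfk, map_mul, map_mul, hfX, zero_mul, add_zero]
  obtain ⟨y, hy⟩ := hX
  have hcr : ∀ r : k⟦X⟧, c (algebraMap k⟦X⟧ P r) = constantCoeff r := by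
    intro r
    obtain ⟨r', hr'⟩ := hdec r
    conv_lhs => rw [hr']
    rw [map_add, map_add, hC, hcι, map_mul, map_mul, hy, map_mul, hϖ, zero_mul, zero_mul, add_zero]
  letI : Algebra k⟦X⟧ A := ((algebraMap k A).comp constantCoeff).toAlgebra
  let f1 : S →ₐ[k⟦X⟧] A := { f with commutes' := fun r => hfr r }
  let f2 : P →ₐ[k⟦X⟧] A := { (algebraMap k A).comp c with
    commutes' := fun r => by
      change algebraMap k A (c (algebraMap k⟦X⟧ P r)) = _
      rw [hcr]
      rfl }
  let g : (P ⊗[k⟦X⟧] S) →ₐ[k⟦X⟧] A := Algebra.TensorProduct.lift f2 f1 fun _ _ => Commute.all _ _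
  have hg1 : ∀ s, g (1 ⊗ₜ s) = f s := by
    intro s
    simp [g, f1]
  have hg2 : ∀ p, g (algebraMap P (P ⊗[k⟦X⟧] S) p) = algebraMap k A (c p) := by
    intro p
    simp [g, f2, Algebra.TensorProduct.algebraMap_apply]
  have hg3 : g (algebraMap P (P ⊗[k⟦X⟧] S) ϖ) = 0 := by rw [hg2, hϖ, map_zero]
  refine ⟨g, ?_, ?_, ?_⟩
  · intro a
    obtain ⟨s, hs⟩ := hf a
    exact ⟨1 ⊗ₜ s, (hg1 s).trans hs⟩
  · intro a
    change g _ = _
    rw [hg2, hcι]
  · have hform : ∀ t : P ⊗[k⟦X⟧] S, ∃ (s : S) (t' : P ⊗[k⟦X⟧] S),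
        t = 1 ⊗ₜ s + algebraMap P (P ⊗[k⟦X⟧] S) ϖ * t' := by
      intro t
      induction t using TensorProduct.induction_on with
      | zero => exact ⟨0, 0, by simp⟩
      | add t1 t2 h1 h2 =>
        obtain ⟨s1, t1', h1⟩ := h1
        obtain ⟨s2, t2', h2⟩ := h2
        refine ⟨s1 + s2, t1' + t2', ?_⟩
        conv_lhs => rw [h1, h2]
        rw [TensorProduct.tmul_add]
        ring
      | tmul p s =>
        obtain ⟨p', hp'⟩ := hP p
        refine ⟨algebraMap k⟦X⟧ S (C (c p)) * s, p' ⊗ₜ s, ?_⟩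
        conv_lhs => rw [hp', TensorProduct.add_tmul]
        congr 1
        · rw [← hC, Algebra.algebraMap_eq_smul_one, TensorProduct.smul_tmul, Algebra.smul_def]
        · rw [Algebra.TensorProduct.algebraMap_apply, Algebra.TensorProduct.tmul_mul_tmul, one_mul]
          rfl
    apply le_antisymm
    · intro t ht
      obtain ⟨s, t', hst⟩ := hform t
      have h1 : g t = 0 := ht
      rw [hst, map_add, hg1, map_mul, hg3, zero_mul, add_zero] at h1
      have h2 : s ∈ RingHom.ker f := h1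
      rw [hker, Ideal.mem_span_singleton] at h2
      obtain ⟨s', hs'⟩ := h2
      rw [Ideal.mem_span_singleton, hst]
      refine dvd_add ?_ (dvd_mul_right _ _)
      refine ⟨y ⊗ₜ s', ?_⟩
      rw [hs', ← Algebra.smul_def, ← TensorProduct.smul_tmul, ← Algebra.algebraMap_eq_smul_one, hy,
        Algebra.TensorProduct.algebraMap_apply, Algebra.TensorProduct.tmul_mul_tmul, one_mul]
      rfl
    · rw [Ideal.span_singleton_le_iff_mem]
      exact hg3

end special

end Pool.Agent.R838.Approx
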