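import Mathlib

/-!
The integral closure of a complete discrete valuation ring in an algebraic extension of its field
of fractions is a valuation ring. (Universe polymorphic copy of a part of `Y809/PS/DB.lean` and
`Y809/PS/VAL.lean` of the starting files.)
-/

set_option autoImplicit false

open Polynomial

namespace Pool.Agent.R838.Approx

section

variable {A : Type*} [CommRing A] [IsLocalRing A] [IsHausdorff (IsLocalRing.maximalIdeal A) A]

theorem dvd_of_fac {P D : A[X]} {q : PowerSeries A}
    (hD : D.IsDistinguishedAt (IsLocalRing.maximalIdeal A)) (h : (P : PowerSeries A) = D * q) :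
    D ∣ P := by
  have F : (D : PowerSeries A).IsWeierstrassFactorization D 1 := ⟨hD, isUnit_one, by rw [mul_one]⟩
  have hn := F.natDegree_eq_toNat_order_map
  have h1 : (P : PowerSeries A).IsWeierstrassDivision D q 0 := by
    refine ⟨?_, by rw [h]; simp⟩
    rw [degree_zero]
    exact WithBot.bot_lt_coe _
  have h2 : (P : PowerSeries A).IsWeierstrassDivision D ((P /ₘ D : A[X]) : PowerSeries A)
      (P %ₘ D) := by
    refine ⟨?_, ?_⟩
    · have h3 := degree_modByMonic_lt P hD.monic
      rw [degree_eq_natDegree hD.monic.ne_zero, hn] at h3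
      exact h3
    · rw [← Polynomial.coe_mul, ← Polynomial.coe_add, add_comm, modByMonic_add_div P D]
  have h3 := (PowerSeries.IsWeierstrassDivision.elim F.map_ne_zero h1 h2).2
  exact (modByMonic_eq_zero_iff_dvd hD.monic).1 h3.symm

end

section

variable (O : Type*) [CommRing O] [IsDomain O] [IsDiscreteValuationRing O]
    [IsAdicComplete (IsLocalRing.maximalIdeal O) O]

theorem db (P : PowerSeries O) (hP : P ≠ 0) : ∃ (c : O) (D : O[X]) (U : PowerSeries O), c ≠ 0 ∧
    D.Monic ∧ (∀ {n}, n < D.natDegree → D.coeff n ∈ IsLocalRing.maximalIdeal O) ∧ IsUnit U ∧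
      P = PowerSeries.C c * (D : PowerSeries O) * U := by
  obtain ⟨ϖ, hϖ⟩ := IsDiscreteValuationRing.exists_irreducible O
  have h1 : ∃ n, (∀ i, ϖ ^ n ∣ PowerSeries.coeff i P) ∧
      ∃ i, ¬ ϖ ^ (n + 1) ∣ PowerSeries.coeff i P := by
    by_contra hcon
    push Not at hcon
    have h2 : ∀ n i, ϖ ^ n ∣ PowerSeries.coeff i P := by
      intro n
      induction n with
      | zero => intro i; simp
      | succ n ih => exact hcon n ih
    apply hP
    ext i
    rw [map_zero]
    by_contra h3
    obtain ⟨m, u, hu⟩ := IsDiscreteValuationRing.eq_unit_mul_pow_irreducible h3 hϖ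
    have h4 := h2 (m + 1) i
    rw [hu, pow_succ] at h4
    have h5 : ϖ ^ m * ϖ ∣ ϖ ^ m * u := by rwa [mul_comm (u : O)] at h4
    have h6 : ϖ ∣ u := by
      rwa [mul_dvd_mul_iff_left (pow_ne_zero m hϖ.ne_zero)] at h5
    exact hϖ.not_isUnit (isUnit_of_dvd_unit h6 u.isUnit)
  obtain ⟨n, hn, i0, hi0⟩ := h1
  choose f hf using hn
  have hPf : P = PowerSeries.C (ϖ ^ n) * PowerSeries.mk f := by
    ext i
    rw [PowerSeries.coeff_C_mul, PowerSeries.coeff_mk, hf i]
  have hne : (PowerSeries.mk f).map (IsLocalRing.residue O) ≠ 0 := by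
    intro h0
    have h7 := congrArg (PowerSeries.coeff i0) h0
    rw [PowerSeries.coeff_map, PowerSeries.coeff_mk, map_zero, IsLocalRing.residue_eq_zero_iff,
      hϖ.maximalIdeal_eq, Ideal.mem_span_singleton] at h7
    apply hi0
    rw [hf i0, pow_succ]
    exact mul_dvd_mul_left _ h7
  obtain ⟨D, U, H⟩ := PowerSeries.exists_isWeierstrassFactorization hne
  refine ⟨ϖ ^ n, D, U, pow_ne_zero n hϖ.ne_zero, H.isDistinguishedAt.monic,
    fun hi => H.isDistinguishedAt.mem hi, H.isUnit, ?_⟩
  rw [hPf, H.eq_mul, mul_assoc]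

end

section

variable {A k κ : Type*} [CommRing A] [IsDomain A] [IsDiscreteValuationRing A]
    [IsAdicComplete (IsLocalRing.maximalIdeal A) A] [Field k] [Field κ] [Algebra A k]
    [Algebra k κ] [Algebra A κ] [IsScalarTower A k κ] [IsFractionRing A k]
    [Algebra.IsAlgebraic k κ]

omit [IsDiscreteValuationRing A] [IsAdicComplete (IsLocalRing.maximalIdeal A) A] [Field k]
  [Algebra A k] [Algebra k κ] [IsScalarTower A k κ] [IsFractionRing A k]
  [Algebra.IsAlgebraic k κ] in
theorem inv_integral {P : A[X]} {z : κ} (hz : z ≠ 0) (h0 : IsUnit (P.coeff 0))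
    (hP : aeval z P = 0) : IsIntegral A z⁻¹ := by
  have hne : P.coeff 0 ≠ 0 := h0.ne_zero
  have hl : P.reverse.leadingCoeff = P.coeff 0 := by
    rw [reverse_leadingCoeff, trailingCoeff, natTrailingDegree_eq_zero.2 (Or.inr hne)]
  obtain ⟨u, hu⟩ := h0
  refine ⟨C ((u⁻¹ : Aˣ) : A) * P.reverse, ?_, ?_⟩
  · rw [Monic, leadingCoeff_mul, leadingCoeff_C, hl, ← hu, Units.inv_mul]
  · letI : Invertible z := invertibleOfNonzero hz
    rw [eval₂_mul]
    have h1 := (eval₂_reverse_eq_zero_iff (algebraMap A κ) z P).2 hP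
    rw [invOf_eq_inv] at h1
    rw [h1, mul_zero]

include k in
variable (k) in
theorem int_or_inv (z : κ) : IsIntegral A z ∨ IsIntegral A z⁻¹ := by
  by_cases hz : z = 0
  · left; rw [hz]; exact isIntegral_zero
  have hzk : IsIntegral k z := Algebra.IsIntegral.isIntegral z
  have hirr := minpoly.irreducible hzk
  obtain ⟨b, hb⟩ := IsLocalization.integerNormalization_map_to_map (nonZeroDivisors A)
    (minpoly k z)
  set P := IsLocalization.integerNormalization (nonZeroDivisors A) (minpoly k z) with hP
  have hinj : Function.Injective (algebraMap A κ) := by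
    rw [IsScalarTower.algebraMap_eq A k κ]
    exact (algebraMap k κ).injective.comp (IsFractionRing.injective A k)
  have hb0 : algebraMap A k (b : A) ≠ 0 := by
    rw [Ne, FaithfulSMul.algebraMap_eq_zero_iff]
    exact nonZeroDivisors.ne_zero b.2
  have hbP : P.map (algebraMap A k) = C (algebraMap A k (b : A)) * minpoly k z := by
    rw [hb, ← smul_eq_C_mul]
    simp [Submonoid.smul_def, Algebra.smul_def]
  have hPz : aeval z P = 0 := by
    rw [← aeval_map_algebraMap k z P, hbP, map_mul, minpoly.aeval, mul_zero]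
  have hP0 : P ≠ 0 := by
    rintro h0
    rw [h0, Polynomial.map_zero] at hbP
    rcases mul_eq_zero.1 hbP.symm with h1 | h1
    · exact hb0 (C_eq_zero.1 h1)
    · exact hirr.ne_zero h1
  obtain ⟨c, D, U, hc, hDm, hDc, hU, heq⟩ := db A (P : PowerSeries A) (by
    rw [Ne, Polynomial.coe_eq_zero_iff]; exact hP0)
  have hD : D.IsDistinguishedAt (IsLocalRing.maximalIdeal A) :=
    { mem := fun {n} hn => hDc hn
      monic := hDm }
  obtain ⟨Q, hQ⟩ := dvd_of_fac hD (P := P) (q := PowerSeries.C c * U) (by rw [heq]; ring)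
  have hfac : minpoly k z = D.map (algebraMap A k) *
      (C (algebraMap A k (b : A))⁻¹ * Q.map (algebraMap A k)) := by
    have h1 : (C (algebraMap A k (b : A)) : k[X]) ≠ 0 := by rwa [Ne, C_eq_zero]
    apply mul_left_cancel₀ h1
    rw [← hbP, hQ, Polynomial.map_mul]
    have h2 : (C (algebraMap A k (b : A)) : k[X]) * C (algebraMap A k (b : A))⁻¹ = 1 := by
      rw [← C_mul, mul_inv_cancel₀ hb0, C_1]
    linear_combination (-D.map (algebraMap A k) * Q.map (algebraMap A k)) * h2
  rcases hirr.isUnit_or_isUnit hfac with h1 | h1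
  · -- `D = 1`
    right
    have hD1 : D = 1 := by
      have h2 := (hDm.map (algebraMap A k)).eq_one_of_isUnit h1
      have h3 : D.natDegree = 0 := by
        rw [← hDm.natDegree_map (algebraMap A k), h2, natDegree_one]
      exact hDm.natDegree_eq_zero.1 h3
    rw [hD1, Polynomial.coe_one, mul_one] at heq
    set P0 : A[X] := PowerSeries.trunc (P.natDegree + 1) U with hP0d
    have hPP : P = C c * P0 := by
      ext i
      have h2 : PowerSeries.coeff i (P : PowerSeries A) = c * PowerSeries.coeff i U := by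
        rw [heq, PowerSeries.coeff_C_mul]
      rw [Polynomial.coeff_coe] at h2
      rw [h2, coeff_C_mul, hP0d, PowerSeries.coeff_trunc]
      split_ifs with h3
      · rfl
      · have h4 : P.coeff i = 0 := coeff_eq_zero_of_natDegree_lt (by omega)
        rw [h4] at h2
        rw [← h2, mul_zero]
    have hz0 : aeval z P0 = 0 := by
      rw [hPP, map_mul, aeval_C] at hPz
      rcases mul_eq_zero.1 hPz with h2 | h2
      · exact absurd (hinj (h2.trans (map_zero _).symm)) hc
      · exact h2
    refine inv_integral hz ?_ hz0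
    rw [hP0d, PowerSeries.coeff_trunc, if_pos (Nat.succ_pos _),
      PowerSeries.coeff_zero_eq_constantCoeff_apply]
    exact PowerSeries.isUnit_constantCoeff U hU
  · -- `D(z) = 0`
    left
    refine ⟨D, hDm, ?_⟩
    have h2 := minpoly.aeval k z
    rw [hfac, map_mul, aeval_map_algebraMap] at h2
    rcases mul_eq_zero.1 h2 with h3 | h3
    · exact h3
    · exfalso
      have h4 : IsUnit (aeval z (C (algebraMap A k (b : A))⁻¹ * Q.map (algebraMap A k))) :=
        h1.map (aeval z)
      rw [h3] at h4
      exact not_isUnit_zero h4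

end

end Pool.Agent.R838.Approx
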