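import Pool.Agent.R838.Exist1
import Pool.Agent.R838.Exist2
import Pool.Agent.R838.Exist3
import Pool.Agent.R838.Val

set_option autoImplicit false
set_option linter.style.haveILetI false

namespace Pool.Agent.R838.Approx

open PowerSeries TensorProduct Module

section dvr

variable (k : Type*) [Field k]

instance isAdicComplete_powerSeries :
    IsAdicComplete (IsLocalRing.maximalIdeal k⟦X⟧) k⟦X⟧ := by
  rw [PowerSeries.maximalIdeal_eq_span_X]
  infer_instance

variable [IsAlgClosed k] (L : Type*) [Field L] [Algebra (LaurentSeries k) L]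
  [Algebra k⟦X⟧ L] [IsScalarTower k⟦X⟧ (LaurentSeries k) L]
  [FiniteDimensional (LaurentSeries k) L] [Algebra.IsSeparable (LaurentSeries k) L]

theorem exists_embed : ∃ f : integralClosure k⟦X⟧ L →+* k⟦X⟧, Function.Injective f ∧
    (∀ a : k, f (algebraMap k⟦X⟧ (integralClosure k⟦X⟧ L) (C a)) = C a) ∧
    X ∣ f (algebraMap k⟦X⟧ (integralClosure k⟦X⟧ L) X) := by
  set R := k⟦X⟧
  set K := LaurentSeries k
  let O := integralClosure R L
  haveI : IsDedekindDomain O := integralClosure.isDedekindDomain R K L
  haveI : IsFractionRing O L := IsIntegralClosure.isFractionRing_of_finite_extension R K L O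
  haveI : Algebra.IsIntegral R O := inferInstance
  haveI hval : ValuationRing O := by
    rw [ValuationRing.iff_isInteger_or_isInteger O L]
    intro x
    rcases int_or_inv (A := R) K x with h | h
    · exact Or.inl ⟨⟨x, h⟩, rfl⟩
    · exact Or.inr ⟨⟨x⁻¹, h⟩, rfl⟩
  have hinjRO : Function.Injective (algebraMap R O) := by
    have h1 : Function.Injective (algebraMap R L) := by
      rw [IsScalarTower.algebraMap_eq R K L]
      exact (algebraMap K L).injective.comp (IsFractionRing.injective R K)
    have h2 : Function.Injective ((algebraMap O L) ∘ (algebraMap R O)) := h1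
    exact h2.of_comp
  haveI hloc : IsLocalHom (algebraMap R O) :=
    (algebraMap_isIntegral_iff.mpr inferInstance : (algebraMap R O).IsIntegral).isLocalHom hinjRO
  have hXm : algebraMap R O X ∈ IsLocalRing.maximalIdeal O := by
    rw [IsLocalRing.mem_maximalIdeal, mem_nonunits_iff]
    intro h
    exact PowerSeries.X_irreducible.not_isUnit (isUnit_of_map_unit _ _ h)
  have hnf : ¬ IsField O := by
    intro h
    rw [IsLocalRing.isField_iff_maximalIdeal_eq.1 h] at hXm
    exact X_ne_zero (hinjRO ((Ideal.mem_bot.1 hXm).trans (map_zero _).symm))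
  haveI hdvr : IsDiscreteValuationRing O :=
    ((IsDiscreteValuationRing.TFAE O hnf).out 0 2 :
      IsDiscreteValuationRing O ↔ IsDedekindDomain O).2 inferInstance
  obtain ⟨π, hπ⟩ := IsDiscreteValuationRing.exists_irreducible O
  have hmax := hπ.maximalIdeal_eq
  letI : Algebra k O := ((algebraMap R O).comp (C : k →+* R)).toAlgebra
  have hkO : ∀ a : k, algebraMap k O a = algebraMap R O (C a) := fun _ => rfl
  have hres : ∀ x : O, ∃ (c : k) (y : O), x = algebraMap k O c + π * y := by
    intro x
    obtain ⟨p, hp, hpx⟩ := Algebra.IsIntegral.isIntegral (R := R) x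
    let pb := p.map (constantCoeff : R →+* k)
    have hpb : pb.Monic := hp.map _
    have hs : pb.Splits := IsAlgClosed.splits pb
    have h1 : pb = (pb.roots.map (fun a => Polynomial.X - Polynomial.C a)).prod := by
      exact (hs.eq_prod_roots_of_monic hpb)
    have h2 : Polynomial.aeval x pb ∈ IsLocalRing.maximalIdeal O := by
      have h3 : ∀ r : R, algebraMap R O r - algebraMap k O (constantCoeff r) ∈
          IsLocalRing.maximalIdeal O := by
        intro r
        have h4 : (X : R) ∣ r - C (constantCoeff r) := by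
          rw [X_dvd_iff]; simp
        obtain ⟨r', hr'⟩ := h4
        rw [hkO, ← map_sub, hr', map_mul]
        exact Ideal.mul_mem_right _ _ hXm
      have h5 : Polynomial.aeval x pb - Polynomial.eval₂ (algebraMap R O) x p ∈
          IsLocalRing.maximalIdeal O := by
        rw [Polynomial.aeval_def, Polynomial.eval₂_map, Polynomial.eval₂_eq_sum_range,
          Polynomial.eval₂_eq_sum_range, ← Finset.sum_sub_distrib]
        refine Ideal.sum_mem _ fun i _ => ?_
        rw [← sub_mul]
        refine Ideal.mul_mem_right _ _ ?_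
        rw [← neg_sub]
        exact (IsLocalRing.maximalIdeal O).neg_mem (h3 _)
      rw [hpx, sub_zero] at h5
      exact h5
    rw [h1, map_multiset_prod, Multiset.map_map] at h2
    haveI : (IsLocalRing.maximalIdeal O).IsPrime := (IsLocalRing.maximalIdeal.isMaximal O).isPrime
    rw [Ideal.IsPrime.multiset_prod_mem_iff_exists_mem this] at h2
    obtain ⟨y, hy, hym⟩ := h2
    obtain ⟨a, -, rfl⟩ := Multiset.mem_map.1 hy
    rw [hmax, Ideal.mem_span_singleton] at hym
    obtain ⟨z, hz⟩ := hym
    refine ⟨a, z, ?_⟩
    rw [← hz]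
    simp
  have hsep : ∀ x : O, (∀ n, π ^ n ∣ x) → x = 0 := by
    intro x hx
    have h1 : x ∈ (⨅ i : ℕ, IsLocalRing.maximalIdeal O ^ i) := by
      rw [Ideal.mem_iInf]
      intro i
      rw [hmax, Ideal.span_singleton_pow, Ideal.mem_span_singleton]
      exact hx i
    rw [Ideal.iInf_pow_eq_bot_of_isLocalRing _ (IsLocalRing.maximalIdeal.isMaximal O).ne_top] at h1
    exact h1
  obtain ⟨f, hf, hfπ⟩ := exists_expand (k := k) π hπ.ne_zero hπ.not_isUnit hsep hres
  refine ⟨f, hf, fun a => ?_, ?_⟩
  · exact f.commutes a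
  · rw [hmax, Ideal.mem_span_singleton] at hXm
    obtain ⟨y, hy⟩ := hXm
    refine ⟨f y, ?_⟩
    change f (algebraMap R O X) = _
    rw [hy, map_mul, hfπ]

end dvr

end Pool.Agent.R838.Approx
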