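import Pool.Agent.R838.Exist4

set_option autoImplicit false
set_option linter.style.haveILetI false

namespace Pool.Agent.R838.Approx

open PowerSeries TensorProduct Module

section sep

variable (K B : Type*) [Field K] [CommRing B] [Algebra K B] [Module.Finite K B]
  [Algebra.IsGeometricallyReduced K B]

theorem isSeparable_hom (χ : B →ₐ[K] AlgebraicClosure K) (b : B) : IsSeparable K (χ b) := by
  haveI := formallyUnramified K B
  haveI : Module.Finite K χ.range := Module.Finite.of_surjective χ.rangeRestrict.toLinearMap
    χ.rangeRestrict_surjective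
  have hfield : IsField χ.range :=
    isField_of_isIntegral_of_isField' (R := K) (Field.toIsField K)
  let F := χ.range.toIntermediateField' hfield
  let g : B →ₐ[K] F := χ.rangeRestrict
  have hg : Function.Surjective g := χ.rangeRestrict_surjective
  haveI : Algebra.FormallyUnramified K F := Algebra.FormallyUnramified.of_surjective g hg
  haveI : Module.Finite K F := Module.Finite.of_surjective g.toLinearMap hg
  haveI : Algebra.IsSeparable K F := Algebra.FormallyUnramified.isSeparable K F
  have h1 : IsSeparable K (g b) := Algebra.IsSeparable.isSeparable K (g b)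
  have h2 : minpoly K (F.val (g b)) = minpoly K (g b) :=
    minpoly.algHom_eq F.val F.val.injective (g b)
  have h3 : F.val (g b) = χ b := rfl
  rw [h3] at h2
  rw [IsSeparable, h2]
  exact h1

end sep

section main

variable (k : Type*) [Field k] [IsAlgClosed k] (S : Type*) [CommRing S] [Algebra k⟦X⟧ S]
  [Module.Finite k⟦X⟧ S] [Module.Free k⟦X⟧ S]
  [Algebra.IsGeometricallyReduced (LaurentSeries k) (LaurentSeries k ⊗[k⟦X⟧] S)]

theorem exists_homs_powerSeries : ∃ φ : k⟦X⟧ →+* k⟦X⟧, (∀ a : k, φ (C a) = C a) ∧ X ∣ φ X ∧
    ∃ ψ : Fin (finrank k⟦X⟧ S) → (S →+* k⟦X⟧), Function.Injective ψ ∧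
      ∀ i r, ψ i (algebraMap k⟦X⟧ S r) = φ r := by
  classical
  set R := k⟦X⟧
  set K := LaurentSeries k
  let B := K ⊗[R] S
  haveI : Module.Finite K B := inferInstance
  have hfr : finrank K B = finrank R S := Module.finrank_baseChange
  obtain ⟨χ, hχ⟩ : ∃ χ : Fin (finrank R S) → (B →ₐ[K] AlgebraicClosure K),
      Function.Injective χ := by
    rw [← hfr]
    exact exists_homs K B
  let Ω := AlgebraicClosure K
  let ψ : Fin (finrank R S) → (S →ₐ[R] Ω) := fun i =>
    ((χ i).restrictScalars R).comp Algebra.TensorProduct.includeRight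
  have hψ : Function.Injective ψ := by
    intro i j hij
    apply hχ
    refine Algebra.TensorProduct.ext (by ext) ?_
    exact hij
  obtain ⟨s0, hs0⟩ := (inferInstance : Module.Finite R S)
  let T : Set Ω := ⋃ i, ψ i '' (s0 : Set S)
  haveI hTf : Finite T := Set.finite_iUnion fun i => (s0.finite_toSet.image _)
  let L := IntermediateField.adjoin K T
  haveI hL1 : FiniteDimensional K L := IntermediateField.finiteDimensional_adjoin
    fun x _ => Algebra.IsIntegral.isIntegral x
  haveI hL2 : Algebra.IsSeparable K L := by
    rw [IntermediateField.isSeparable_adjoin_iff_isSeparable]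
    intro x hx
    obtain ⟨i, hi⟩ := Set.mem_iUnion.1 hx
    obtain ⟨s, -, rfl⟩ := hi
    exact isSeparable_hom K B (χ i) _
  have hmem : ∀ i s, ψ i s ∈ L := by
    intro i s
    have h1 : s ∈ Submodule.span R (s0 : Set S) := by rw [hs0]; trivial
    induction h1 using Submodule.span_induction with
    | mem x hx => exact IntermediateField.subset_adjoin K T (Set.mem_iUnion.2 ⟨i, x, hx, rfl⟩)
    | zero => rw [map_zero]; exact L.zero_mem
    | add x y _ _ hx hy => rw [map_add]; exact L.add_mem hx hy
    | smul r x _ hx =>
      rw [map_smul, Algebra.smul_def, IsScalarTower.algebraMap_apply R K Ω]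
      exact L.mul_mem (L.algebraMap_mem _) hx
  obtain ⟨f, hf, hfC, hfX⟩ := exists_embed k L
  let ψL : Fin (finrank R S) → (S →ₐ[R] L) := fun i =>
    (ψ i).codRestrict (L.toSubalgebra.restrictScalars R) (hmem i)
  have hint : ∀ i s, ψL i s ∈ integralClosure R L := by
    intro i s
    exact (Algebra.IsIntegral.isIntegral (R := R) s).map (ψL i)
  let ψO : Fin (finrank R S) → (S →ₐ[R] integralClosure R L) := fun i =>
    (ψL i).codRestrict (integralClosure R L) (hint i)
  refine ⟨f.comp (algebraMap R (integralClosure R L)), hfC, hfX,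
    fun i => f.comp (ψO i).toRingHom, ?_, ?_⟩
  · intro i j hij
    apply hψ
    ext s
    have h1 := DFunLike.congr_fun hij s
    have h2 : ψO i s = ψO j s := hf h1
    have h3 : ((ψO i s : integralClosure R L) : L) = (ψO j s : integralClosure R L) := by rw [h2]
    have h4 : ψL i s = ψL j s := h3
    exact congrArg (fun x : L => (x : Ω)) h4
  · intro i r
    change f (ψO i (algebraMap R S r)) = f (algebraMap R _ r)
    rw [(ψO i).commutes]

end main

end Pool.Agent.R838.Approx
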