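import Mathlib

/-! A generic basis of a finite-dimensional unital algebra over an infinite field has no zero
structure constants. -/

set_option autoImplicit false

namespace Pool.Agent.R838.Approx

open Module

section field

variable {k V : Type*} [Field k] [AddCommGroup V] [Module k V] {d : ℕ}

lemma exists_basis_apply (b : Basis (Fin d) k V) {u : V} (hu : u ≠ 0) (l : Fin d) :
    ∃ β : Basis (Fin d) k V, β l = u := by
  classical
  have hs : LinearIndepOn k id ({u} : Set V) := LinearIndepOn.singleton hu
  let B0 := Basis.extend hs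
  let x0 : hs.extend (Set.subset_univ _) := ⟨u, hs.subset_extend _ rfl⟩
  let σ := B0.indexEquiv b
  refine ⟨B0.reindex (σ.trans (Equiv.swap (σ x0) l)), ?_⟩
  rw [Basis.reindex_apply]
  have : (σ.trans (Equiv.swap (σ x0) l)).symm l = x0 := by
    rw [Equiv.symm_apply_eq]
    simp
  rw [this]
  exact Basis.extend_apply_self hs x0

/-- the transvection -/
def trans (φ : V →ₗ[k] k) (u : V) (h : φ u = 0) : V ≃ₗ[k] V where
  toFun v := v + φ v • u
  map_add' x y := by rw [map_add, add_smul]; abel
  map_smul' c x := by rw [map_smul, smul_eq_mul, mul_smul, smul_add]; rfl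
  invFun v := v - φ v • u
  left_inv v := by
    simp [h]
  right_inv v := by
    simp [h]

lemma trans_apply (φ : V →ₗ[k] k) (u : V) (h : φ u = 0) (v : V) :
    trans φ u h v = v + φ v • u := rfl

lemma trans_symm_apply (φ : V →ₗ[k] k) (u : V) (h : φ u = 0) (v : V) :
    (trans φ u h).symm v = v - φ v • u := rfl

variable (μ : V →ₗ[k] V →ₗ[k] V) (u : V)

lemma exists_ne [Infinite k] (hu : u ≠ 0) (h1 : ∀ x, μ u x = x) (h2 : ∀ x, μ x u = x)
    (b : Basis (Fin d) k V) (i j l : Fin d) :
    ∃ e : Basis (Fin d) k V, e.repr (μ (e i) (e j)) l ≠ 0 := by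
  classical
  by_cases hli : l = i
  · subst hli
    obtain ⟨β, hβ⟩ := exists_basis_apply b hu j
    refine ⟨β, ?_⟩
    rw [hβ, h2, Basis.repr_self]
    simp
  by_cases hlj : l = j
  · subst hlj
    obtain ⟨β, hβ⟩ := exists_basis_apply b hu i
    refine ⟨β, ?_⟩
    rw [hβ, h1, Basis.repr_self]
    simp
  obtain ⟨β, hβ⟩ := exists_basis_apply b hu l
  have hf : ∀ m, β.coord m u = if m = l then 1 else 0 := by
    intro m
    rw [← hβ, Basis.coord_apply, Basis.repr_self, Finsupp.single_apply]
    simp [eq_comm]
  -- the formula for the coordinate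
  have key : ∀ (φ : V →ₗ[k] k) (h : φ u = 0) (v : V),
      (β.map (trans φ u h)).repr v l = β.coord l v - φ v := by
    intro φ h v
    rw [Basis.map_repr, LinearEquiv.trans_apply, trans_symm_apply, map_sub, map_smul,
      Finsupp.sub_apply, Finsupp.smul_apply, ← hβ, Basis.repr_self]
    simp
  by_cases hij : i = j
  · subst hij
    by_contra hcon
    push Not at hcon
    have key2 : ∀ ε : k, β.coord l (μ (β i) (β i)) - ε * β.coord i (μ (β i) (β i)) - ε ^ 2 = 0 := by
      intro ε
      have h0 : (ε • β.coord i) u = 0 := by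
        rw [LinearMap.smul_apply, hf, if_neg (Ne.symm hli), smul_zero]
      have h3 := hcon (β.map (trans (ε • β.coord i) u h0))
      rw [key, Basis.map_apply, trans_apply] at h3
      have h4 : (ε • β.coord i) (β i) = ε := by simp
      have h5 : β.coord l (β i) = 0 := by
        rw [Basis.coord_apply, Basis.repr_self, Finsupp.single_apply, if_neg (Ne.symm hli)]
      have h6 : β.coord l u = 1 := by rw [hf, if_pos rfl]
      have h7 : β.coord i u = 0 := by rw [hf, if_neg (Ne.symm hli)]
      have h8 : β.coord i (β i) = 1 := by simp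
      rw [h4] at h3
      simp only [map_add, map_smul, LinearMap.add_apply, LinearMap.smul_apply, h1, h2,
        smul_eq_mul, h5, h6, h7, h8, mul_one, mul_zero, add_zero, zero_add] at h3
      linear_combination h3
    obtain ⟨ε, hε⟩ := Set.Infinite.exists_notMem_finset (Set.infinite_univ (α := k))
      {0, - β.coord i (μ (β i) (β i))}
    have h3 := key2 0
    have h4 := key2 ε
    have hε2 : ε ≠ 0 ∧ ε ≠ - β.coord i (μ (β i) (β i)) := by
      have := hε.2
      simp only [Finset.mem_insert, Finset.mem_singleton, not_or] at this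
      exact this
    have h5 : ε * (ε + β.coord i (μ (β i) (β i))) = 0 := by linear_combination h3 - h4
    rcases mul_eq_zero.1 h5 with h | h
    · exact hε2.1 h
    · exact hε2.2 (eq_neg_of_add_eq_zero_left h)
  · by_contra hcon
    push Not at hcon
    have key2 : ∀ ε δ : k, β.coord l (μ (β i) (β j)) - ε * β.coord i (μ (β i) (β j))
        - δ * β.coord j (μ (β i) (β j)) - ε * δ = 0 := by
      intro ε δ
      have h0 : (ε • β.coord i + δ • β.coord j) u = 0 := by
        rw [LinearMap.add_apply, LinearMap.smul_apply, LinearMap.smul_apply, hf, hf,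
          if_neg (Ne.symm hli), if_neg (Ne.symm hlj), smul_zero, smul_zero, add_zero]
      have h3 := hcon (β.map (trans (ε • β.coord i + δ • β.coord j) u h0))
      rw [key, Basis.map_apply, Basis.map_apply, trans_apply, trans_apply] at h3
      have e1 : β.coord i (β i) = 1 := by simp
      have e2 : β.coord j (β j) = 1 := by simp
      have e3 : β.coord i (β j) = 0 := by
        rw [Basis.coord_apply, Basis.repr_self, Finsupp.single_apply, if_neg (Ne.symm hij)]
      have e4 : β.coord j (β i) = 0 := by
        rw [Basis.coord_apply, Basis.repr_self, Finsupp.single_apply, if_neg hij]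
      have e5 : β.coord l (β i) = 0 := by
        rw [Basis.coord_apply, Basis.repr_self, Finsupp.single_apply, if_neg (Ne.symm hli)]
      have e6 : β.coord l (β j) = 0 := by
        rw [Basis.coord_apply, Basis.repr_self, Finsupp.single_apply, if_neg (Ne.symm hlj)]
      have e7 : β.coord l u = 1 := by rw [hf, if_pos rfl]
      have e8 : β.coord i u = 0 := by rw [hf, if_neg (Ne.symm hli)]
      have e9 : β.coord j u = 0 := by rw [hf, if_neg (Ne.symm hlj)]
      simp only [map_add, map_smul, LinearMap.add_apply, LinearMap.smul_apply, h1, h2,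
        smul_eq_mul, e1, e2, e3, e4, e5, e6, e7, e8, e9, mul_one, mul_zero, add_zero,
        zero_add] at h3
      linear_combination h3
    have h00 := key2 0 0
    have h10 := key2 1 0
    have h01 := key2 0 1
    have h11 := key2 1 1
    have : (1 : k) = 0 := by linear_combination h10 + h01 - h00 - h11
    exact one_ne_zero this

/-- A generic basis has nonzero structure constants only. -/
theorem exists_basis_all [Infinite k] (hu : u ≠ 0) (h1 : ∀ x, μ u x = x) (h2 : ∀ x, μ x u = x)
    (b : Basis (Fin d) k V) :
    ∃ e : Basis (Fin d) k V, ∀ i j l, e.repr (μ (e i) (e j)) l ≠ 0 := by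
  classical
  let G : Matrix (Fin d) (Fin d) (MvPolynomial (Fin d × Fin d) k) :=
    Matrix.of fun i a => MvPolynomial.X (i, a)
  let pr : Fin d → Fin d → Fin d → MvPolynomial (Fin d × Fin d) k := fun i j c =>
    ∑ a, ∑ a', MvPolynomial.X (i, a) * MvPolynomial.X (j, a') *
      MvPolynomial.C (b.repr (μ (b a) (b a')) c)
  let P : Fin d → Fin d → Fin d → MvPolynomial (Fin d × Fin d) k := fun i j l =>
    (G.updateRow l (pr i j)).det
  let v : (Fin d × Fin d → k) → Fin d → V := fun g i => ∑ a, g (i, a) • b a
  have hv : ∀ g i a, b.repr (v g i) a = g (i, a) := by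
    intro g i a
    exact congrFun (b.repr_sum_self (fun a => g (i, a))) a
  have hpr : ∀ g i j c, MvPolynomial.eval g (pr i j c) = b.repr (μ (v g i) (v g j)) c := by
    intro g i j c
    simp only [pr, v, map_sum, map_mul, MvPolynomial.eval_X, MvPolynomial.eval_C, map_smul,
      LinearMap.sum_apply, LinearMap.smul_apply, Finsupp.coe_finsetSum, Finset.sum_apply,
      Finsupp.smul_apply, smul_eq_mul, Finset.mul_sum]
    rw [Finset.sum_comm]
    refine Finset.sum_congr rfl fun a _ => Finset.sum_congr rfl fun a' _ => ?_
    ring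
  have hG : ∀ g, MvPolynomial.eval g G.det = b.det (v g) := by
    intro g
    rw [RingHom.map_det, Basis.det_apply, ← Matrix.det_transpose]
    congr 1
    ext a i
    rw [Matrix.transpose_apply, Basis.toMatrix_apply, hv]
    simp [G]
  have hP : ∀ g i j l, MvPolynomial.eval g (P i j l) =
      b.det (Function.update (v g) l (μ (v g i) (v g j))) := by
    intro g i j l
    rw [RingHom.map_det, Basis.det_apply, ← Matrix.det_transpose]
    congr 1
    ext a m
    rw [Matrix.transpose_apply, Basis.toMatrix_apply]
    simp only [RingHom.mapMatrix_apply, Matrix.map_apply, Matrix.updateRow_apply,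
      Function.update_apply]
    split_ifs with h
    · exact hpr g i j a
    · rw [hv]
      simp [G]
  have hcr : ∀ (e : Basis (Fin d) k V) (w : V) (l : Fin d),
      b.det (Function.update e l w) = b.det e * e.repr w l := by
    intro e w l
    have h3 := b.det_smul_mk_coord_eq_det_update e.linearIndependent e.span_eq.ge l
    have h4 := LinearMap.congr_fun h3 w
    rw [LinearMap.smul_apply, MultilinearMap.toLinearMap_apply] at h4
    have h5 : (Basis.mk e.linearIndependent e.span_eq.ge) = e := by
      apply Basis.eq_of_apply_eq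
      intro i
      simp
    rw [h5, smul_eq_mul, Basis.coord_apply] at h4
    exact h4.symm
  have hvb : ∀ e : Basis (Fin d) k V, v (fun q => b.repr (e q.1) q.2) = e := by
    intro e
    funext i
    exact b.sum_repr (e i)
  have hG0 : G.det ≠ 0 := by
    intro h
    have h3 := hG (fun q => b.repr (b q.1) q.2)
    rw [h, map_zero, hvb, Basis.det_self] at h3
    exact one_ne_zero h3.symm
  have hP0 : ∀ i j l, P i j l ≠ 0 := by
    intro i j l h
    obtain ⟨e, he⟩ := exists_ne μ u hu h1 h2 b i j l
    have h3 := hP (fun q => b.repr (e q.1) q.2) i j l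
    rw [h, map_zero, hvb, hcr] at h3
    exact mul_ne_zero (b.isUnit_det e).ne_zero he h3.symm
  have hQ : G.det * ∏ i, ∏ j, ∏ l, P i j l ≠ 0 := by
    refine mul_ne_zero hG0 ?_
    rw [Finset.prod_ne_zero_iff]
    intro i _
    rw [Finset.prod_ne_zero_iff]
    intro j _
    rw [Finset.prod_ne_zero_iff]
    intro l _
    exact hP0 i j l
  obtain ⟨g, hg⟩ : ∃ g, MvPolynomial.eval g (G.det * ∏ i, ∏ j, ∏ l, P i j l) ≠ 0 := by
    by_contra hcon
    push Not at hcon
    apply hQ
    apply MvPolynomial.funext
    intro x
    rw [hcon x, map_zero]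
  rw [map_mul] at hg
  have hg1 := left_ne_zero_of_mul hg
  have hg2 := right_ne_zero_of_mul hg
  rw [hG] at hg1
  obtain ⟨hli, hsp⟩ := (b.is_basis_iff_det (v := v g)).2 (isUnit_iff_ne_zero.2 hg1)
  let e := Basis.mk hli hsp.ge
  have he : (e : Fin d → V) = v g := by
    funext i
    simp [e]
  refine ⟨e, fun i j l h => ?_⟩
  simp only [map_prod] at hg2
  have h3 := Finset.prod_ne_zero_iff.1 (Finset.prod_ne_zero_iff.1
    (Finset.prod_ne_zero_iff.1 hg2 i (Finset.mem_univ _)) j (Finset.mem_univ _)) l
    (Finset.mem_univ _)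
  rw [hP, ← he, hcr, h, mul_zero] at h3
  exact h3 rfl

end field

end Pool.Agent.R838.Approx
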