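import Pool.Agent.R838.Generic

/-! A free algebra over `k⟦X⟧` has a basis all of whose structure constants are units. -/

set_option autoImplicit false

namespace Pool.Agent.R838.Approx

open Module PowerSeries

section lift

variable {k A : Type*} [Field k] [CommRing A] [Algebra k⟦X⟧ A] {d : ℕ}

/-- reduction of coordinates -/
noncomputable def rho (b : Basis (Fin d) k⟦X⟧ A) (a : A) : Fin d → k :=
  fun m => constantCoeff (b.repr a m)

/-- constant lift -/
noncomputable def sec (b : Basis (Fin d) k⟦X⟧ A) (x : Fin d → k) : A :=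
  ∑ m, (C (x m) : k⟦X⟧) • b m

variable (b : Basis (Fin d) k⟦X⟧ A)

lemma rho_add (a a' : A) : rho b (a + a') = rho b a + rho b a' := by
  funext m
  simp [rho]

lemma rho_smul (r : k⟦X⟧) (a : A) : rho b (r • a) = constantCoeff r • rho b a := by
  funext m
  simp [rho]

lemma rho_sum {ι : Type*} (s : Finset ι) (f : ι → A) : rho b (∑ i ∈ s, f i) = ∑ i ∈ s, rho b (f i) := by
  classical
  induction s using Finset.induction_on with
  | empty => funext m; simp [rho]
  | insert i s hi ih => rw [Finset.sum_insert hi, Finset.sum_insert hi, rho_add, ih]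

lemma repr_sec (x : Fin d → k) (m : Fin d) : b.repr (sec b x) m = C (x m) := by
  have := b.repr_sum_self (fun m => (C (x m) : k⟦X⟧))
  exact congrFun this m

lemma rho_sec (x : Fin d → k) : rho b (sec b x) = x := by
  funext m
  rw [rho, repr_sec]
  simp

lemma sec_add (x y : Fin d → k) : sec b (x + y) = sec b x + sec b y := by
  simp [sec, add_smul, Finset.sum_add_distrib]

lemma sec_smul (c : k) (x : Fin d → k) : sec b (c • x) = (C c : k⟦X⟧) • sec b x := by
  simp only [sec, Pi.smul_apply, smul_eq_mul, map_mul, Finset.smul_sum, mul_smul]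

lemma rho_mul (a a' : A) : rho b (a * a') =
    ∑ i, ∑ j, (rho b a i * rho b a' j) • rho b (b i * b j) := by
  conv_lhs => rw [← b.sum_repr a, ← b.sum_repr a', Finset.sum_mul_sum]
  rw [rho_sum]
  refine Finset.sum_congr rfl fun i _ => ?_
  rw [rho_sum]
  refine Finset.sum_congr rfl fun j _ => ?_
  rw [smul_mul_smul_comm, rho_smul, map_mul]
  rfl

/-- the reduced multiplication -/
noncomputable def mu : (Fin d → k) →ₗ[k] (Fin d → k) →ₗ[k] (Fin d → k) :=
  LinearMap.mk₂ k (fun x y => rho b (sec b x * sec b y))
    (fun x y z => by rw [sec_add, add_mul, rho_add])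
    (fun c x y => by rw [sec_smul, smul_mul_assoc, rho_smul]; simp)
    (fun x y z => by rw [sec_add, mul_add, rho_add])
    (fun c x y => by rw [sec_smul, mul_smul_comm, rho_smul]; simp)

lemma mu_apply (x y : Fin d → k) : mu b x y = rho b (sec b x * sec b y) := rfl

lemma mu_rho (a a' : A) : mu b (rho b a) (rho b a') = rho b (a * a') := by
  rw [mu_apply, rho_mul, rho_mul, rho_sec, rho_sec]

/-- A nonzero free `k⟦X⟧`-algebra of finite rank, `k` an infinite field, has a basis all of whose
structure constants have a nonzero constant coefficient. -/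
theorem exists_basis_unit (b : Basis (Fin d) k⟦X⟧ A) [Infinite k] [Nontrivial A] :
    ∃ e : Basis (Fin d) k⟦X⟧ A, ∀ i j l, constantCoeff (e.repr (e i * e j) l) ≠ 0 := by
  classical
  have h1 : ∀ x, mu b (rho b 1) x = x := by
    intro x
    conv_lhs => rw [← rho_sec b x]
    rw [mu_rho, one_mul, rho_sec]
  have h2 : ∀ x, mu b x (rho b 1) = x := by
    intro x
    conv_lhs => rw [← rho_sec b x]
    rw [mu_rho, mul_one, rho_sec]
  have hd : Nonempty (Fin d) := b.index_nonempty
  have hu : rho b 1 ≠ 0 := by
    intro h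
    have h3 := h1 (fun _ => 1)
    rw [h, map_zero, LinearMap.zero_apply] at h3
    have h4 := congrFun h3 hd.some
    simp at h4
  obtain ⟨e0, he0⟩ := exists_basis_all (mu b) (rho b 1) hu h1 h2 (Pi.basisFun k (Fin d))
  let v : Fin d → A := fun i => sec b (e0 i)
  have hdet : b.det v = C ((Pi.basisFun k (Fin d)).det e0) := by
    rw [Basis.det_apply, Basis.det_apply, RingHom.map_det]
    congr 1
    ext a i
    rw [Basis.toMatrix_apply, repr_sec]
    simp [Basis.toMatrix_apply]
  have hunit : IsUnit (b.det v) := by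
    rw [hdet]
    exact ((Pi.basisFun k (Fin d)).isUnit_det e0).map _
  obtain ⟨hli, hsp⟩ := (b.is_basis_iff_det (v := v)).2 hunit
  let e := Basis.mk hli hsp.ge
  have he : ∀ i, e i = sec b (e0 i) := fun i => by simp [e, v]
  refine ⟨e, fun i j l h => he0 i j l ?_⟩
  have h3 : mu b (e0 i) (e0 j) = ∑ m, constantCoeff (e.repr (e i * e j) m) • e0 m := by
    rw [mu_apply, ← he, ← he]
    conv_lhs => rw [← e.sum_repr (e i * e j)]
    rw [rho_sum]
    refine Finset.sum_congr rfl fun m _ => ?_
    rw [rho_smul, he m, rho_sec]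
  rw [h3]
  have h4 := congrFun (e0.repr_sum_self (fun m => constantCoeff (e.repr (e i * e j) m))) l
  exact h4.trans h

end lift

end Pool.Agent.R838.Approx
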